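import Pool.Agent.K3h88.VR.Stm

/-! Brick ALT of the project VR (helper88, MP_bc06f7_co): the alteration (helper62). -/

set_option autoImplicit false

namespace Pool.Agent.K3h62.VR

open Finset Pool.Agent.K3h88.VR

theorem add_self' {n : ℕ} (x : E n) : x + x = 0 :=
  funext fun i => CharTwo.add_self_eq_zero (x i)

theorem add_eq_zero' {n : ℕ} {x y : E n} (h : x + y = 0) : x = y := by
  have : x + (y + y) = y := by rw [← add_assoc, h, zero_add]
  rwa [add_self', add_zero] at this

theorem mem_tri_of {n : ℕ} (V : Submodule (ZMod 2) (E n)) (T : Finset (E n)) (x y v : E n)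
    (hx : x ≠ 0) (hy : y ≠ 0) (hxy : x ≠ y) (hT : T = {x, y, x + y}) (hv : v ∈ V) (hvT : v ∈ T) :
    T ∈ tri V := by
  classical
  have e : x + y + x = y := by rw [add_comm, ← add_assoc, add_self', zero_add]
  unfold tri
  rw [mem_filter]
  refine ⟨mem_univ _, ?_⟩
  rw [hT, mem_insert, mem_insert, mem_singleton] at hvT
  rcases hvT with rfl | rfl | rfl
  · exact ⟨v, hv, y, hx, hy, hxy, hT⟩
  · refine ⟨v, hv, x, hy, hx, hxy.symm, ?_⟩
    rw [hT, insert_comm, add_comm]
  · refine ⟨x + y, hv, x, fun h => hxy (add_eq_zero' h), hx, fun h => hy ?_, ?_⟩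
    · exact add_eq_left.1 h
    · rw [hT, e]
      ext z
      simp only [mem_insert, mem_singleton]
      tauto

theorem t_ALT : S_ALT := by
  classical
  intro n d k A h0 hA
  obtain ⟨F, hF, hmax⟩ := exists_max_image
    (univ.filter (fun S : Finset (Finset (E n)) => PD S ∧ ∀ T ∈ S, ∃ x y : E n, x ≠ 0 ∧ y ≠ 0 ∧
      x ≠ y ∧ T = {x, y, x + y} ∧ T ⊆ A)) card
    ⟨∅, by
      rw [mem_filter]
      exact ⟨mem_univ _, fun T hT => absurd hT (notMem_empty T),
        fun T hT => absurd hT (notMem_empty T)⟩⟩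
  rw [mem_filter] at hF
  obtain ⟨-, hPD, hT⟩ := hF
  refine ⟨A \ F.biUnion id, ?_, ?_⟩
  · intro x hx y hy hxy
    rw [mem_sdiff, mem_biUnion] at hx hy hxy
    have hx0 : x ≠ 0 := fun h => h0 (h ▸ hx.1)
    have hy0 : y ≠ 0 := fun h => h0 (h ▸ hy.1)
    have hne : x ≠ y := by
      rintro rfl
      rw [add_self'] at hxy
      exact h0 hxy.1
    have hnot : ∀ z ∈ ({x, y, x + y} : Finset (E n)), ∀ T ∈ F, z ∉ T := by
      intro z hz T hTF hzT
      rw [mem_insert, mem_insert, mem_singleton] at hz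
      rcases hz with rfl | rfl | rfl
      · exact hx.2 ⟨T, hTF, hzT⟩
      · exact hy.2 ⟨T, hTF, hzT⟩
      · exact hxy.2 ⟨T, hTF, hzT⟩
    have hdis : ∀ T ∈ F, Disjoint ({x, y, x + y} : Finset (E n)) T := fun T hTF =>
      disjoint_left.2 fun z hz => hnot z hz T hTF
    have hnF : ({x, y, x + y} : Finset (E n)) ∉ F := fun h =>
      hnot x (mem_insert_self _ _) _ h (mem_insert_self _ _)
    have := hmax (insert {x, y, x + y} F) (by
      rw [mem_filter]
      refine ⟨mem_univ _, ?_, ?_⟩
      · intro T h1 T' h2 hTT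
        rw [mem_insert] at h1 h2
        rcases h1 with rfl | h1 <;> rcases h2 with rfl | h2
        · exact absurd rfl hTT
        · exact hdis T' h2
        · exact (hdis T h1).symm
        · exact hPD T h1 T' h2 hTT
      · intro T h1
        rw [mem_insert] at h1
        rcases h1 with rfl | h1
        · refine ⟨x, y, hx0, hy0, hne, rfl, ?_⟩
          intro z hz
          rw [mem_insert, mem_insert, mem_singleton] at hz
          rcases hz with rfl | rfl | rfl
          · exact hx.1
          · exact hy.1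
          · exact hxy.1
        · exact hT T h1)
    rw [card_insert_of_notMem hnF] at this
    omega
  · intro V hV
    obtain ⟨hD, hS⟩ := hA V hV
    have hk : (F.filter fun T => ∃ v ∈ T, v ∈ V).card ≤ k := by
      by_contra hcon
      obtain ⟨S, hS1, hS2⟩ := exists_subset_card_eq (Nat.succ_le_of_lt (not_le.1 hcon))
      apply hS
      refine ⟨S, ?_, hS2, ?_, ?_⟩
      · intro T hTS
        have := hS1 hTS
        rw [mem_filter] at this
        obtain ⟨h1, v, h2, h3⟩ := this
        obtain ⟨x, y, g1, g2, g3, g4, -⟩ := hT T h1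
        exact mem_tri_of V T x y v g1 g2 g3 g4 h3 h2
      · intro T h1 T' h2 hne
        exact hPD T (mem_filter.1 (hS1 h1)).1 T' (mem_filter.1 (hS1 h2)).1 hne
      · intro T h1
        obtain ⟨x, y, -, -, -, -, g⟩ := hT T (mem_filter.1 (hS1 h1)).1
        exact g
    obtain ⟨x, hx1, hx2, hx3⟩ := hD ((F.filter fun T => ∃ v ∈ T, v ∈ V).biUnion id) (by
      refine (card_biUnion_le_card_mul _ _ 3 fun T h1 => ?_).trans
        ((Nat.mul_le_mul_right 3 hk).trans (by omega))
      obtain ⟨x, y, -, -, -, g, -⟩ := hT T (mem_filter.1 h1).1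
      rw [id, g]
      exact card_le_three)
    refine ⟨x, hx1, mem_sdiff.2 ⟨hx2, fun h => hx3 ?_⟩⟩
    rw [mem_biUnion] at h ⊢
    obtain ⟨T, h1, h2⟩ := h
    exact ⟨T, mem_filter.2 ⟨h1, x, h2, hx1⟩, h2⟩

end Pool.Agent.K3h62.VR
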